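import Mathlib

namespace Pool.Agent.Results.MP_a13a55_pr.Rigid
open MeasureTheory Finset

/-- `D c x y`: the edge `xy` is oriented from `x` to `y` and has colour `c` -/
structure IsSchreier {V : Type} (G : SimpleGraph V) {d : ℕ} (D : Fin d → V → V → Prop) : Prop where
  adj : ∀ c x y, D c x y → G.Adj x y
  edge : ∀ x y, G.Adj x y → ∃! p : Fin d × Bool, if p.2 then D p.1 x y else D p.1 y x
  out : ∀ c x, ∃! y, D c x y
  inn : ∀ c y, ∃! x, D c x y

/-- `F` is a measurable `Aut(G)`-equivariant map from labelings to Schreier decorations -/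
def IsFIID {V : Type} (G : SimpleGraph V) {d : ℕ}
    (F : (V → unitInterval) → Fin d → V → V → Prop) : Prop :=
  (∀ ω, IsSchreier G (F ω)) ∧ (∀ c x y, MeasurableSet {ω | F ω c x y}) ∧
    ∀ (φ : G ≃g G) ω c x y, F (ω ∘ φ.symm) c (φ x) (φ y) ↔ F ω c x y

abbrev H := ℤ × ℤ × ℤ
/-- multiplication of the discrete Heisenberg group -/
def mul (x y : H) : H := (x.1 + y.1, x.2.1 + y.2.1, x.2.2 + y.2.2 + x.1 * y.2.1)
def T : Fin 10 → H := ![(1, 0, 0), (0, 1, 0), (0, 1, -1), (1, -1, 0), (1, 1, -1),
  (-1, 0, 0), (0, -1, 0), (0, -1, 1), (-1, 1, -1), (-1, -1, 2)]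

lemma assoc (x y z : H) : mul (mul x y) z = mul x (mul y z) := by
  simp only [mul, Prod.mk.injEq]; refine ⟨?_, ?_, ?_⟩ <;> ring
lemma canc {x y z : H} : mul x y = mul x z ↔ y = z := by
  obtain ⟨a, b, c⟩ := y; obtain ⟨a', b', c'⟩ := z
  simp only [mul, Prod.mk.injEq]; grind
lemma mul0 (x : H) : mul x 0 = x := by simp [mul]
lemma back (x : H) (i : Fin 10) : mul (mul x (T i)) (T (i + 5)) = x := by
  rw [assoc, show mul (T i) (T (i + 5)) = 0 by revert i; decide, mul0]
lemma Tinj : Function.Injective T := by decide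

def G : SimpleGraph H where
  Adj x y := ∃ i, y = mul x (T i)
  symm := ⟨by rintro x _ ⟨i, rfl⟩; exact ⟨i + 5, (back x i).symm⟩⟩
  loopless := ⟨fun x ⟨i, h⟩ => by
    rw [← mul0 x, assoc, canc] at h; revert i; decide⟩

def A (i j : Fin 10) : Bool := decide (∃ k, T j = mul (T i) (T k))
def W : ℕ → Fin 10 → ℕ
  | 0, _ => 1
  | n + 1, i => ∑ j, if A i j then W n j else 0

lemma rigid (φ : G ≃g G) (x : H) (i : Fin 10) : φ (mul x (T i)) = mul (φ x) (T i) := by
  choose π hπ using fun i => φ.map_adj_iff.2 (show G.Adj x (mul x (T i)) from ⟨i, rfl⟩)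
  have inj : Function.Injective π := fun i j h =>
    Tinj (canc.1 (φ.injective (by rw [hπ, hπ, h])))
  have hA : ∀ i j, A (π i) (π j) = A i j := fun i j => by
    have := φ.map_adj_iff (v := mul x (T i)) (w := mul x (T j))
    rw [hπ, hπ] at this
    simpa [G, A, assoc, canc] using this
  have hW : ∀ n i, W n (π i) = W n i := fun n => by
    induction n with
    | zero => exact fun _ => rfl
    | succ n ih =>
      intro i
      rw [W, W, ← (Equiv.ofBijective π inj.bijective_of_finite).sum_comp]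
      simp [hA, ih]
  rw [hπ, (by decide +kernel : Function.Injective (W 5)) (hW 5 i)]

def left (a : H) : G ≃g G where
  toFun := mul a
  invFun := mul (-a.1, -a.2.1, a.1 * a.2.1 - a.2.2)
  left_inv x := by simp [mul]; ring_nf
  right_inv x := by simp [mul]; ring_nf
  map_rel_iff' := by simp [G, assoc, canc]

lemma conn : G.Connected := by
  have s : ∀ (x : H) i, G.Reachable x (mul x (T i)) := fun x i => .symm (.symm
    (SimpleGraph.Adj.reachable ⟨i, rfl⟩))
  have ind : ∀ f : ℤ → H, (∀ n, G.Reachable (f n) (f (n + 1))) → ∀ n, G.Reachable (f 0) (f n) :=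
    fun f h n => by
      induction n using Int.induction_on with
      | zero => rfl
      | succ i ih => exact ih.trans (h _)
      | pred i ih => exact ih.trans (by simpa using (h (-i - 1)).symm)
  have key : ∀ x : H, G.Reachable 0 x := fun ⟨a, b, c⟩ =>
    ((ind (fun n => (0, 0, n)) (fun n => by
      simpa [mul, T] using (s (0, 0, n) 1).trans (s _ 7)) c).trans
    (ind (fun n => (0, n, c)) (fun n => by simpa [mul, T] using s (0, n, c) 1) b)).trans
    (ind (fun n => (n, b, c)) (fun n => by simpa [mul, T] using s (n, b, c) 0) a)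
  exact ⟨fun x y => (key x).symm.trans (key y)⟩

theorem result : ∃ (d : ℕ) (V : Type) (_ : Countable V) (G : SimpleGraph V)
    (F : (V → unitInterval) → Fin d → V → V → Prop), 1 ≤ d ∧ G.Connected ∧
    (∀ v, (G.neighborSet v).encard = 2 * d) ∧ (∀ v w, ∃ φ : G ≃g G, φ v = w) ∧ IsFIID G F ∧
    Measure.infinitePi (fun _ : V => (volume : Measure unitInterval))
      {ω | ∃ c, ∃ p : ℕ → V, Function.Injective p ∧ ∀ n, F ω c (p n) (p (n + 1))} = 1 := by
  refine ⟨5, H, inferInstance, G, fun _ c x y => y = mul x (T (c.castAdd 5)), by norm_num, conn,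
    fun v => ?_, fun v w => ⟨(left v).symm.trans (left w), ?_⟩,
    ⟨fun _ => ⟨fun c x y h => ⟨_, h⟩, ?_, fun c x => existsUnique_eq, fun c y =>
      ⟨mul y (T (c.castAdd 5 + 5)), ?_, fun x h => by rw [h, back]⟩⟩, fun _ _ _ => .const _,
      fun φ _ c x y => by simp only [← rigid, φ.injective.eq_iff]⟩, ?_⟩
  · rw [show G.neighborSet v = (fun i => mul v (T i)) '' Set.univ by ext; simp [G, eq_comm],
      (show Function.Injective _ from fun i j h => Tinj (canc.1 h)).encard_image]
    simp; rfl
  · exact (congrArg (left w) ((left v).symm_apply_eq.2 (mul0 v).symm)).trans (mul0 w)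
  · rintro x _ ⟨i, rfl⟩
    have e : ∀ j k, x = mul (mul x (T j)) (T k) ↔ 0 = mul (T j) (T k) := fun j k => by
      rw [assoc, ← canc (x := x) (y := 0), mul0]
    simp only [canc, e, ExistsUnique]
    revert i; decide
  · refine (back y (c.castAdd 5 + 5)).symm.trans (congrArg _ (congrArg T ?_))
    revert c; decide
  · refine (congrArg _ (Set.eq_univ_of_forall fun _ => ?_)).trans measure_univ
    exact ⟨0, fun n => (n, 0, 0), fun a b h => by simpa using h, fun n => by simp [mul, T]⟩

end Pool.Agent.Results.MP_a13a55_pr.Rigid
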